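import Pool.Agent.H459R3.Main

/-! Cotype 2 of the quotient norm of `ℓ₁^N` by `ker G` from three inequalities for `G`.

The lift `f` of a Rademacher sum is compared with its degree one part through the vector
`T f - f / 2` (`T` the noise operator with parameter `1 / 2`), which lies in the kernel of `G` and
has a controlled `ℓ₁` norm.  Coordinates on which `f` is rarely large are treated in `ℓ₂`, the few
others in `ℓ₁`. -/

set_option autoImplicit false
set_option linter.unusedSectionVars false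

open Finset

namespace W690.Cot

open H459R3

section scalar
variable {ι : Type} [Fintype ι] [DecidableEq ι]

/-- Walsh coefficients of the noise operator. -/
lemma hat_noise (ρ : ℝ) (g : (ι → Bool) → ℝ) (A : Finset ι) :
    H459R3.hat (fun σ => ∑ τ, kern ρ σ τ * g τ) A = ρ ^ A.card * H459R3.hat g A := by
  unfold H459R3.hat avg
  rw [mul_div_assoc']
  congr 1
  simp_rw [Finset.sum_mul]
  rw [Finset.sum_comm, Finset.mul_sum]
  refine Finset.sum_congr rfl fun τ _ => ?_
  have := sum_kern_walsh ρ τ A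
  calc ∑ σ, kern ρ σ τ * g τ * walsh A σ = g τ * ∑ σ, kern ρ τ σ * walsh A σ := by
        rw [Finset.mul_sum]
        refine Finset.sum_congr rfl fun σ _ => ?_
        rw [kern_comm ρ σ τ]; ring
    _ = ρ ^ A.card * (g τ * walsh A τ) := by rw [this]; ring

/-- if `g` has no part of degree `0`, `1` then `‖g‖ ≤ 4 ‖T g - g / 2‖`. -/
lemma sixteen (g : (ι → Bool) → ℝ) (hg0 : avg g = 0)
    (hg1 : ∀ i, avg (fun σ => g σ * sg (σ i)) = 0) :
    avg (fun σ => g σ ^ 2) ≤
      16 * avg (fun σ => ((∑ τ, kern (1 / 2) σ τ * g τ) - (1 / 2) * g σ) ^ 2) := by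
  rw [← parseval, ← parseval, Finset.mul_sum]
  refine Finset.sum_le_sum fun A _ => ?_
  have h : H459R3.hat (fun σ => (∑ τ, kern (1 / 2) σ τ * g τ) - (1 / 2) * g σ) A
      = ((1 / 2) ^ A.card - 1 / 2) * H459R3.hat g A := by
    have h1 := hat_noise (1 / 2) g A
    have h2 : H459R3.hat (fun σ => (∑ τ, kern (1 / 2) σ τ * g τ) - (1 / 2) * g σ) A
        = H459R3.hat (fun σ => ∑ τ, kern (1 / 2) σ τ * g τ) A - (1 / 2) * H459R3.hat g A := by
      unfold H459R3.hat
      rw [← avg_mul, ← avg_sub]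
      congr 1
      funext σ
      ring
    rw [h2, h1]; ring
  rw [h]
  rcases Nat.lt_or_ge A.card 2 with hA | hA
  · have hz : H459R3.hat g A = 0 := by
      interval_cases hc : A.card
      · rw [Finset.card_eq_zero] at hc
        subst hc
        rw [hat_empty, hg0]
      · rw [Finset.card_eq_one] at hc
        obtain ⟨i, rfl⟩ := hc
        unfold H459R3.hat
        simpa using hg1 i
    rw [hz]; simp
  · have h3 : ((1 : ℝ) / 2) ^ A.card ≤ (1 / 2) ^ 2 :=
      pow_le_pow_of_le_one (by norm_num) (by norm_num) hA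
    have h4 : (0 : ℝ) ≤ (1 / 2) ^ A.card := by positivity
    have h5 : 1 ≤ 16 * ((1 / 2 : ℝ) ^ A.card - 1 / 2) ^ 2 := by nlinarith
    calc H459R3.hat g A ^ 2 = 1 * H459R3.hat g A ^ 2 := (one_mul _).symm
      _ ≤ (16 * ((1 / 2 : ℝ) ^ A.card - 1 / 2) ^ 2) * H459R3.hat g A ^ 2 :=
          mul_le_mul_of_nonneg_right h5 (sq_nonneg _)
      _ = _ := by ring

/-- the threshold inequality: if `f` is rarely larger than `t` then the second moment of `f` is
controlled by its truncation and by its distance to its degree one part. -/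
lemma thresh (f : (ι → Bool) → ℝ) {t : ℝ} (ht : 0 ≤ t)
    (hB : avg (fun σ => if t < |f σ| then (1 : ℝ) else 0) ≤ 1 / 8) :
    avg (fun σ => f σ ^ 2) ≤ 32 * t * avg (fun σ => |f σ|)
      + 34 * avg (fun σ => (f σ - rad (coef f) σ) ^ 2) := by
  set X : (ι → Bool) → ℝ := rad (coef f) with hX
  set b : (ι → Bool) → ℝ := fun σ => if t < |f σ| then (1 : ℝ) else 0 with hb
  have hb01 : ∀ σ, b σ = 0 ∨ b σ = 1 := by
    intro σ
    simp only [hb]
    split_ifs
    · right; rfl
    · left; rfl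
  have hk : avg (fun σ => X σ ^ 2) ≤ 2 * (avg (fun σ => |X σ|)) ^ 2 := by
    have h := kahane (normSeminorm ℝ ℝ) (coef f)
    simpa only [coe_normSeminorm, Real.norm_eq_abs, sq_abs] using h
  have hX0 : 0 ≤ avg (fun σ => |X σ|) := avg_nonneg fun σ => abs_nonneg _
  have h1 : avg (fun σ => |X σ|) = avg (fun σ => |X σ| * b σ) + avg (fun σ => |X σ| * (1 - b σ)) := by
    rw [← avg_add]
    congr 1
    funext σ; ring
  have h2 : avg (fun σ => |X σ| * b σ) ≤ avg (fun σ => |X σ|) / 2 := by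
    have h3 := avg_mul_le_N2 (fun σ => |X σ|) b
    have h4 : (N2 (fun σ => |X σ|) * N2 b) ^ 2 ≤ (avg (fun σ => |X σ|) / 2) ^ 2 := by
      rw [mul_pow, N2_sq, N2_sq]
      have e1 : (fun σ => |X σ| ^ 2) = fun σ => X σ ^ 2 := by funext σ; exact sq_abs _
      have e2 : (fun σ => b σ ^ 2) = b := by
        funext σ
        rcases hb01 σ with h | h <;> rw [h] <;> norm_num
      rw [e1, e2]
      have h5 : 0 ≤ avg b := avg_nonneg fun σ => by rcases hb01 σ with h | h <;> rw [h] <;> norm_num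
      calc avg (fun σ => X σ ^ 2) * avg b ≤ (2 * (avg (fun σ => |X σ|)) ^ 2) * (1 / 8) :=
            mul_le_mul hk hB h5 (by positivity)
        _ = _ := by ring
    have h5 := abs_le_of_sq_le_sq' h4 (by positivity)
    linarith [h5.2]
  have h3 : avg (fun σ => |X σ|) ≤ 2 * avg (fun σ => |X σ| * (1 - b σ)) := by linarith
  have h4 : (avg (fun σ => |X σ| * (1 - b σ))) ^ 2 ≤ avg (fun σ => X σ ^ 2 * (1 - b σ)) := by
    refine (avg_sq_le _).trans (le_of_eq ?_)
    congr 1
    funext σ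
    rw [mul_pow, sq_abs]
    rcases hb01 σ with h | h <;> rw [h] <;> norm_num
  have h5 : avg (fun σ => X σ ^ 2 * (1 - b σ)) ≤
      2 * t * avg (fun σ => |f σ|) + 2 * avg (fun σ => (f σ - X σ) ^ 2) := by
    rw [← avg_mul, ← avg_mul, ← avg_add]
    refine avg_mono fun σ => ?_
    simp only [hb]
    split_ifs with h
    · have h0 : 0 ≤ |f σ| := abs_nonneg _
      have : 0 ≤ 2 * t * |f σ| := by positivity
      nlinarith [sq_nonneg (f σ - X σ)]
    · push Not at h
      have h0 : 0 ≤ |f σ| := abs_nonneg _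
      have h6 : f σ ^ 2 ≤ t * |f σ| := by
        rw [← sq_abs, sq]
        exact mul_le_mul_of_nonneg_right h h0
      nlinarith [sq_nonneg (f σ - (f σ - X σ)), sq_nonneg (f σ + (f σ - X σ))]
  have h6 : avg (fun σ => X σ ^ 2) ≤ 16 * t * avg (fun σ => |f σ|)
      + 16 * avg (fun σ => (f σ - X σ) ^ 2) := by
    have h7 : (avg (fun σ => |X σ|)) ^ 2 ≤ (2 * avg (fun σ => |X σ| * (1 - b σ))) ^ 2 :=
      pow_le_pow_left₀ hX0 h3 2
    nlinarith
  have h7 : avg (fun σ => f σ ^ 2) ≤ 2 * avg (fun σ => X σ ^ 2)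
      + 2 * avg (fun σ => (f σ - X σ) ^ 2) := by
    rw [← avg_mul, ← avg_mul, ← avg_add]
    refine avg_mono fun σ => ?_
    nlinarith [sq_nonneg (X σ - (f σ - X σ))]
  linarith

end scalar

section res
variable {N : ℕ}

/-- restriction to a set of coordinates. -/
noncomputable def res (J : Finset (Fin N)) : (Fin N → ℝ) →ₗ[ℝ] (Fin N → ℝ) where
  toFun b i := if i ∈ J then b i else 0
  map_add' a b := by funext i; by_cases h : i ∈ J <;> simp [h]
  map_smul' c b := by funext i; by_cases h : i ∈ J <;> simp [h]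

lemma res_apply (J : Finset (Fin N)) (b : Fin N → ℝ) (i : Fin N) :
    res J b i = if i ∈ J then b i else 0 := rfl

lemma res_add_compl (J : Finset (Fin N)) (b : Fin N → ℝ) : res J b + res Jᶜ b = b := by
  funext i
  rw [Pi.add_apply, res_apply, res_apply]
  by_cases h : i ∈ J <;> simp [h]

lemma l1_res_le (J : Finset (Fin N)) (b : Fin N → ℝ) : l1 (res J b) ≤ l1 b := by
  rw [l1_apply, l1_apply]
  refine Finset.sum_le_sum fun i _ => ?_
  rw [res_apply]
  split_ifs
  · exact le_rfl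
  · rw [abs_zero]; exact abs_nonneg _

lemma l2_res_sq (J : Finset (Fin N)) (b : Fin N → ℝ) : l2 (res J b) ^ 2 = ∑ i ∈ J, b i ^ 2 := by
  rw [l2_sq]
  simp only [res_apply]
  rw [← Finset.sum_filter_add_sum_filter_not Finset.univ (fun i => i ∈ J)]
  have h1 : ∑ i ∈ Finset.univ.filter (fun i => i ∈ J), (if i ∈ J then b i else 0) ^ 2
      = ∑ i ∈ J, b i ^ 2 := by
    rw [Finset.filter_univ_mem]
    exact Finset.sum_congr rfl fun i hi => by rw [if_pos hi]
  have h2 : ∑ i ∈ Finset.univ.filter (fun i => ¬ i ∈ J), (if i ∈ J then b i else 0) ^ 2 = 0 := by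
    refine Finset.sum_eq_zero fun i hi => ?_
    rw [Finset.mem_filter] at hi
    rw [if_neg hi.2]; norm_num
  rw [h1, h2, add_zero]

lemma l1_res_le_l2 (J : Finset (Fin N)) (b : Fin N → ℝ) :
    l1 (res J b) ≤ √J.card * l2 b := by
  have h0 : l1 (res J b) = ∑ i ∈ J, |b i| := by
    rw [l1_apply]
    simp only [res_apply]
    rw [← Finset.sum_filter_add_sum_filter_not Finset.univ (fun i => i ∈ J)]
    have h1 : ∑ i ∈ Finset.univ.filter (fun i => i ∈ J), |(if i ∈ J then b i else 0)|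
        = ∑ i ∈ J, |b i| := by
      rw [Finset.filter_univ_mem]
      exact Finset.sum_congr rfl fun i hi => by rw [if_pos hi]
    have h2 : ∑ i ∈ Finset.univ.filter (fun i => ¬ i ∈ J), |(if i ∈ J then b i else 0)| = 0 := by
      refine Finset.sum_eq_zero fun i hi => ?_
      rw [Finset.mem_filter] at hi
      rw [if_neg hi.2]; norm_num
    rw [h1, h2, add_zero]
  rw [h0, l2_eq, ← Real.sqrt_mul (by positivity)]
  refine Real.le_sqrt_of_sq_le ?_
  have h1 := sq_sum_le_card_mul_sum_sq (s := J) (f := fun i => |b i|)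
  simp only [sq_abs] at h1
  refine h1.trans (mul_le_mul_of_nonneg_left ?_ (by positivity))
  exact Finset.sum_le_sum_of_subset_of_nonneg (Finset.subset_univ J) fun i _ _ => sq_nonneg _

end res

section main
variable {N n : ℕ}

/-- Bessel's inequality for vector valued functions. -/
lemma bessel_l2 {ι : Type} [Fintype ι] [DecidableEq ι] {κ : Type} [Fintype κ] [DecidableEq κ]
    (u : (ι → Bool) → κ → ℝ) : ∑ k, l2 (coef u k) ^ 2 ≤ N2 (fun σ => l2 (u σ)) ^ 2 := by
  rw [N2_sq, avg_l2_sq]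
  simp_rw [l2_sq]
  rw [Finset.sum_comm]
  refine Finset.sum_le_sum fun j _ => ?_
  simp_rw [coef_apply]
  exact bessel _

set_option maxHeartbeats 2000000 in
/-- **Cotype 2 for all `N`.** -/
theorem det_all {g : Fin N → Fin n → ℝ} (hg : Surj g) (hn : 0 < n) {L C1 c2 C2 C3 : ℝ}
    (hL : 0 < L) (hC1 : 0 ≤ C1) (hc2 : 0 < c2) (hC2 : 0 ≤ C2)
    (E1 : ∀ b, l2 (Gm g b) ≤ C1 * (√n * l2 b + √L * l1 b))
    (E2 : ∀ b, c2 * (√n * l2 b) ≤ l2 (Gm g b) + C2 * (√L * l1 b))
    (E3 : ∀ y, √L * xn g y ≤ C3 * l2 y)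
    {ι : Type} [Fintype ι] [DecidableEq ι] (y : ι → Fin n → ℝ) :
    ∑ i, xn g (y i) ^ 2 ≤ (8 * (1 + 18 * (C2 / c2)) ^ 2
      + 2 * (C1 * C3 * (7 + 35 * (C2 / c2))) ^ 2) * ms (xs hg) y := by
  classical
  set κ : ℝ := C2 / c2 with hκ
  have hκ0 : 0 ≤ κ := by positivity
  have hn' : (0 : ℝ) < n := by exact_mod_cast hn
  have hsn : 0 < √(n : ℝ) := Real.sqrt_pos.2 hn'
  have hsL : 0 < √L := Real.sqrt_pos.2 hL
  set r : ℝ := √L / √n with hr
  have hr0 : 0 < r := by positivity
  have hrn : √n * r = √L := by rw [hr]; field_simp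
  obtain ⟨Λ, hΛ1, hΛ2, hΛ3⟩ := exists_lift hg
  set f : (ι → Bool) → Fin N → ℝ := fun σ => Λ (rad y σ) with hf
  have hGf : ∀ σ, Gm g (f σ) = rad y σ := fun σ => hΛ1 _
  have hcoef : ∀ i, Gm g (coef f i) = y i := by
    intro i
    rw [map_coef]
    simp_rw [hGf]
    exact coef_rad y i
  have hodd : ∀ σ, f (neg σ) = - f σ := by
    intro σ
    simp only [hf, rad_neg, hΛ2]
  set a : ι → Fin N → ℝ := coef f with ha
  set z : (ι → Bool) → Fin N → ℝ := fun σ => f σ - rad a σ with hz
  set M : ℝ := N2 (fun σ => l1 (f σ)) with hM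
  have hM0 : 0 ≤ M := N2_nonneg _
  have hMms : M ^ 2 ≤ ms (xs hg) y := by
    have h1 : M ≤ N2 (fun σ => xs hg (rad y σ)) :=
      N2_mono (fun σ => apply_nonneg _ _) fun σ => hΛ3 _
    have h2 := pow_le_pow_left₀ hM0 h1 2
    rw [N2_sq (fun σ => xs hg (rad y σ))] at h2
    exact h2
  refine le_trans ?_ (mul_le_mul_of_nonneg_left hMms (by positivity))
  -- the vector `w`
  have hzv : avgV z = 0 := by
    apply avgV_odd
    intro σ
    simp only [hz, hodd, rad_neg]
    abel
  have hz1 : ∀ i, coef z i = 0 := fun i => coef_sub_rad f i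
  have hGz : ∀ σ, Gm g (z σ) = 0 := by
    intro σ
    simp only [hz, map_sub, hGf, map_rad]
    simp_rw [hcoef]
    rw [sub_self]
  set w : (ι → Bool) → Fin N → ℝ := fun σ => noise (1 / 2) z σ - (1 / 2 : ℝ) • z σ with hw
  have hw2 : ∀ σ, w σ = noise (1 / 2) f σ - (1 / 2 : ℝ) • f σ := by
    intro σ
    have h1 : noise (1 / 2) z σ = noise (1 / 2) f σ - noise (1 / 2) (rad a) σ :=
      noise_sub (1 / 2) f (rad a) σ
    show noise (1 / 2) z σ - (1 / 2 : ℝ) • (f σ - rad a σ) = _
    rw [h1, noise_rad, smul_sub]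
    abel
  have hGw : ∀ σ, Gm g (w σ) = 0 := by
    intro σ
    have h1 : Gm g (noise (1 / 2) z σ) = 0 := by
      rw [map_noise]
      unfold noise
      simp [hGz]
    simp only [hw, map_sub, map_smul, h1, hGz, smul_zero, sub_self]
  have hw1 : N2 (fun σ => l1 (w σ)) ≤ 3 / 2 * M := by
    have h1 : ∀ σ, l1 (w σ) ≤ l1 (noise (1 / 2) f σ) + 1 / 2 * l1 (f σ) := by
      intro σ
      rw [hw2]
      refine (map_sub_le_add l1 _ _).trans ?_
      rw [map_smul_eq_mul, Real.norm_of_nonneg (by norm_num)]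
    refine (N2_mono (fun σ => apply_nonneg _ _) h1).trans ?_
    refine (N2_add_le _ _).trans ?_
    have h2 : N2 (fun σ => l1 (noise (1 / 2) f σ)) ≤ M := N2_noise_le l1 (by norm_num) (by norm_num) f
    have h3 : N2 (fun σ => 1 / 2 * l1 (f σ)) = 1 / 2 * M := N2_mul (by norm_num) _
    linarith
  have hwl2 : ∀ σ, l2 (w σ) ≤ κ * r * l1 (w σ) := by
    intro σ
    have h1 := E2 (w σ)
    rw [hGw, map_zero, zero_add] at h1
    have h2 : c2 * √n * l2 (w σ) ≤ c2 * √n * (κ * r * l1 (w σ)) := by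
      calc c2 * √n * l2 (w σ) ≤ C2 * (√L * l1 (w σ)) := by linarith
        _ = c2 * √n * (κ * r * l1 (w σ)) := by
            rw [hκ, ← hrn]; field_simp
    exact le_of_mul_le_mul_left h2 (by positivity)
  have hwN : N2 (fun σ => l2 (w σ)) ≤ 3 / 2 * (κ * r) * M := by
    refine (N2_mono (fun σ => l2_nonneg _) hwl2).trans ?_
    rw [N2_mul (by positivity)]
    have := mul_le_mul_of_nonneg_left hw1 (by positivity : 0 ≤ κ * r)
    linarith
  have hzN : N2 (fun σ => l2 (z σ)) ≤ 6 * (κ * r) * M := by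
    have h1 : N2 (fun σ => l2 (z σ)) ^ 2 ≤ (4 * N2 (fun σ => l2 (w σ))) ^ 2 := by
      rw [mul_pow, N2_sq, N2_sq, avg_l2_sq, avg_l2_sq, Finset.mul_sum]
      refine Finset.sum_le_sum fun j _ => ?_
      have e1 : avg (fun σ => z σ j) = 0 := by
        have := map_avgV (LinearMap.proj j : (Fin N → ℝ) →ₗ[ℝ] ℝ) z
        rw [hzv, map_zero, avgV_real] at this
        exact this.symm
      have e2 : ∀ i, avg (fun σ => z σ j * sg (σ i)) = 0 := by
        intro i
        have := coef_apply z i j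
        rw [hz1, coef_real] at this
        exact this.symm
      have h := sixteen (fun σ => z σ j) e1 e2
      refine h.trans (le_of_eq ?_)
      have e3 : (4 : ℝ) ^ 2 = 16 := by norm_num
      rw [e3]
      congr 2
      funext σ
      congr 1
      simp only [hw, Pi.sub_apply, Pi.smul_apply, smul_eq_mul]
      rw [noise_apply]
      rfl
    have h2 := abs_le_of_sq_le_sq' h1 (by have := N2_nonneg (fun σ => l2 (w σ)); positivity)
    have h3 := h2.2
    nlinarith
  rcases hM0.eq_or_lt with hMz | hMpos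
  · -- degenerate case
    have hfz : ∀ σ, f σ = 0 := by
      intro σ
      have h1 : avg (fun σ => l1 (f σ) ^ 2) = 0 := by
        rw [← N2_sq, ← hM, ← hMz]; norm_num
      unfold avg at h1
      rw [div_eq_zero_iff] at h1
      rcases h1 with h1 | h1
      · have h2 := (Finset.sum_eq_zero_iff_of_nonneg (fun σ _ => sq_nonneg _)).1 h1 σ
          (Finset.mem_univ σ)
        have h3 : l1 (f σ) = 0 := by
          have := pow_eq_zero_iff (two_ne_zero) |>.1 h2
          exact this
        funext i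
        rw [l1_apply] at h3
        have := (Finset.sum_eq_zero_iff_of_nonneg (fun i _ => abs_nonneg (f σ i))).1 h3 i
          (Finset.mem_univ i)
        simpa using this
      · exact absurd h1 (by positivity)
    have hyz : ∀ i, y i = 0 := by
      intro i
      rw [← hcoef i]
      have : a i = 0 := by
        rw [ha]
        unfold coef avgV
        simp [hfz]
      rw [this, map_zero]
    have hxz : ∀ i, xn g (y i) = 0 := by
      intro i
      rw [hyz i, ← xs_apply hg, map_zero]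
    rw [← hMz]
    simp [hxz]
  -- the set `J`
  set t : ℝ := M * r ^ 2 with ht
  have ht0 : 0 < t := by positivity
  set J : Finset (Fin N) := Finset.univ.filter
    (fun i => 1 / 8 < avg (fun σ => if t < |f σ i| then (1 : ℝ) else 0)) with hJ
  have hl1f : avg (fun σ => l1 (f σ)) ≤ M := avg_le_N2 _
  have hl1f' : avg (fun σ => l1 (f σ)) = ∑ i, avg (fun σ => |f σ i|) := by
    rw [← avg_sum]
    rfl
  have hJcard : (J.card : ℝ) * r ^ 2 ≤ 8 := by
    have h1 : ∀ i ∈ J, t / 8 ≤ avg (fun σ => |f σ i|) := by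
      intro i hi
      have h2 : 1 / 8 < avg (fun σ => if t < |f σ i| then (1 : ℝ) else 0) :=
        (Finset.mem_filter.1 hi).2
      have h3 : t * avg (fun σ => if t < |f σ i| then (1 : ℝ) else 0) ≤ avg (fun σ => |f σ i|) := by
        rw [← avg_mul]
        refine avg_mono fun σ => ?_
        split_ifs with h
        · linarith
        · rw [mul_zero]; exact abs_nonneg _
      nlinarith
    have h4 : (J.card : ℝ) * (t / 8) ≤ M := by
      calc (J.card : ℝ) * (t / 8) = ∑ i ∈ J, t / 8 := by rw [Finset.sum_const, nsmul_eq_mul]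
        _ ≤ ∑ i ∈ J, avg (fun σ => |f σ i|) := Finset.sum_le_sum h1
        _ ≤ ∑ i, avg (fun σ => |f σ i|) :=
            Finset.sum_le_sum_of_subset_of_nonneg (Finset.subset_univ J)
              fun i _ _ => avg_nonneg fun σ => abs_nonneg _
        _ ≤ M := by rw [← hl1f']; exact hl1f
    rw [ht] at h4
    have h5 : M * ((J.card : ℝ) * r ^ 2) ≤ M * 8 := by linarith
    exact le_of_mul_le_mul_left h5 hMpos
  have hJr : √J.card * r ≤ 3 := by
    have h1 : (√J.card * r) ^ 2 ≤ 3 ^ 2 := by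
      rw [mul_pow, Real.sq_sqrt (by positivity)]
      linarith
    exact (abs_le_of_sq_le_sq' h1 (by norm_num)).2
  -- coordinates outside `J`
  have hout : N2 (fun σ => l2 (res Jᶜ (f σ))) ≤ r * M * (6 + 35 * κ) := by
    have h1 : N2 (fun σ => l2 (res Jᶜ (f σ))) ^ 2 ≤ 32 * t * M + 34 * N2 (fun σ => l2 (z σ)) ^ 2 := by
      rw [N2_sq]
      simp_rw [l2_res_sq]
      rw [avg_sum]
      have h2 : ∀ i ∈ Jᶜ, avg (fun σ => f σ i ^ 2) ≤ 32 * t * avg (fun σ => |f σ i|)
          + 34 * avg (fun σ => z σ i ^ 2) := by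
        intro i hi
        have h3 : ¬ (1 / 8 < avg (fun σ => if t < |f σ i| then (1 : ℝ) else 0)) := by
          intro h4
          exact (Finset.mem_compl.1 hi) (Finset.mem_filter.2 ⟨Finset.mem_univ i, h4⟩)
        have h4 := thresh (fun σ => f σ i) ht0.le (not_lt.1 h3)
        refine h4.trans (le_of_eq ?_)
        congr 3
        funext σ
        simp only [hz, Pi.sub_apply]
        rw [rad_apply]
        congr 3
        funext k
        exact (coef_apply f k i).symm
      refine (Finset.sum_le_sum h2).trans ?_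
      rw [Finset.sum_add_distrib, ← Finset.mul_sum, ← Finset.mul_sum]
      have h5 : ∑ i ∈ Jᶜ, avg (fun σ => |f σ i|) ≤ M := by
        refine le_trans ?_ hl1f
        rw [hl1f']
        exact Finset.sum_le_sum_of_subset_of_nonneg (Finset.subset_univ _)
          fun i _ _ => avg_nonneg fun σ => abs_nonneg _
      have h6 : ∑ i ∈ Jᶜ, avg (fun σ => z σ i ^ 2) ≤ N2 (fun σ => l2 (z σ)) ^ 2 := by
        rw [N2_sq, avg_l2_sq]
        exact Finset.sum_le_sum_of_subset_of_nonneg (Finset.subset_univ _)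
          fun i _ _ => avg_nonneg fun σ => sq_nonneg _
      have h7 := mul_le_mul_of_nonneg_left h5 (by positivity : 0 ≤ 32 * t)
      linarith
    have h2 : N2 (fun σ => l2 (z σ)) ^ 2 ≤ (6 * (κ * r) * M) ^ 2 :=
      pow_le_pow_left₀ (N2_nonneg _) hzN 2
    have h3 : N2 (fun σ => l2 (res Jᶜ (f σ))) ^ 2 ≤ (r * M * (6 + 35 * κ)) ^ 2 := by
      refine h1.trans ?_
      calc 32 * t * M + 34 * N2 (fun σ => l2 (z σ)) ^ 2
          ≤ 32 * t * M + 34 * (6 * (κ * r) * M) ^ 2 := by linarith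
        _ = (r * M) ^ 2 * (32 + 1224 * κ ^ 2) := by rw [ht]; ring
        _ ≤ (r * M) ^ 2 * (6 + 35 * κ) ^ 2 := by
            refine mul_le_mul_of_nonneg_left ?_ (sq_nonneg _)
            nlinarith
        _ = _ := by ring
    exact (abs_le_of_sq_le_sq' h3 (by positivity)).2
  set u : (ι → Bool) → Fin n → ℝ := fun σ => Gm g (res Jᶜ (f σ)) with hu
  have huN : N2 (fun σ => l2 (u σ)) ≤ C1 * √L * (7 + 35 * κ) * M := by
    have h1 : ∀ σ, l2 (u σ) ≤ C1 * (√n * l2 (res Jᶜ (f σ)) + √L * l1 (f σ)) := by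
      intro σ
      refine (E1 _).trans ?_
      have := l1_res_le Jᶜ (f σ)
      gcongr
    refine (N2_mono (fun σ => l2_nonneg _) h1).trans ?_
    rw [N2_mul hC1]
    have h2 := N2_add_le (fun σ => √n * l2 (res Jᶜ (f σ))) (fun σ => √L * l1 (f σ))
    rw [N2_mul hsn.le, N2_mul hsL.le] at h2
    have h3 := mul_le_mul_of_nonneg_left hout hsn.le
    calc C1 * N2 (fun σ => √n * l2 (res Jᶜ (f σ)) + √L * l1 (f σ))
        ≤ C1 * (√n * (r * M * (6 + 35 * κ)) + √L * M) := by
          refine mul_le_mul_of_nonneg_left ?_ hC1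
          linarith
      _ = C1 * ((√n * r) * (M * (6 + 35 * κ)) + √L * M) := by ring
      _ = _ := by rw [hrn]; ring
  -- the two parts of `y k`
  set aJ : ι → Fin N → ℝ := fun k => res J (a k) with haJ
  set v : ι → Fin n → ℝ := coef u with hv
  have hyk : ∀ k, y k = Gm g (aJ k) + v k := by
    intro k
    have h1 : v k = Gm g (res Jᶜ (a k)) := by
      rw [hv, hu, ha]
      rw [map_coef (res Jᶜ) f k, map_coef]
    rw [h1, haJ, ← map_add, res_add_compl]
    exact (hcoef k).symm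
  have hxk : ∀ k, xn g (y k) ^ 2 ≤ 2 * l1 (aJ k) ^ 2 + 2 * ((C3 / √L) ^ 2 * l2 (v k) ^ 2) := by
    intro k
    have h1 : xn g (y k) ≤ l1 (aJ k) + C3 / √L * l2 (v k) := by
      have h2 : xs hg (y k) ≤ xs hg (Gm g (aJ k)) + xs hg (v k) := by
        rw [hyk k]
        exact map_add_le_add _ _ _
      have h3 : xs hg (Gm g (aJ k)) ≤ l1 (aJ k) := xn_le g _
      have h4 : xs hg (v k) ≤ C3 / √L * l2 (v k) := by
        have h5 := E3 (v k)
        rw [div_mul_eq_mul_div, le_div_iff₀ hsL]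
        show xn g (v k) * √L ≤ _
        linarith
      have h5 : xs hg (y k) = xn g (y k) := rfl
      linarith
    have h0 := xn_nonneg g (y k)
    have h2 := pow_le_pow_left₀ h0 h1 2
    nlinarith [sq_nonneg (l1 (aJ k) - C3 / √L * l2 (v k))]
  refine (Finset.sum_le_sum fun k _ => hxk k).trans ?_
  rw [Finset.sum_add_distrib, ← Finset.mul_sum, ← Finset.mul_sum, ← Finset.mul_sum]
  have hA : ∑ k, l1 (aJ k) ^ 2 ≤ 4 * ((1 + 18 * κ) * M) ^ 2 := by
    refine (l1_cotype (Fintype.equivFin ι) aJ).trans ?_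
    have h1 : N2 (fun σ => l1 (rad aJ σ)) ≤ (1 + 18 * κ) * M := by
      have h2 : ∀ σ, l1 (rad aJ σ) ≤ l1 (f σ) + √J.card * l2 (z σ) := by
        intro σ
        have h3 : rad aJ σ = res J (f σ) - res J (z σ) := by
          have h4 : rad aJ σ = res J (rad a σ) := (map_rad (res J) a σ).symm
          rw [h4, ← map_sub]
          congr 1
          simp only [hz]
          abel
        rw [h3]
        refine (map_sub_le_add l1 _ _).trans ?_
        exact add_le_add (l1_res_le J _) (l1_res_le_l2 J _)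
      refine (N2_mono (fun σ => apply_nonneg _ _) h2).trans ?_
      refine (N2_add_le _ _).trans ?_
      rw [N2_mul (Real.sqrt_nonneg _)]
      have h5 := mul_le_mul_of_nonneg_left hzN (Real.sqrt_nonneg (J.card : ℝ))
      have h6 : √(J.card : ℝ) * (6 * (κ * r) * M) = 6 * κ * M * (√J.card * r) := by ring
      have h7 : 6 * κ * M * (√J.card * r) ≤ 6 * κ * M * 3 :=
        mul_le_mul_of_nonneg_left hJr (by positivity)
      linarith
    have h2 := pow_le_pow_left₀ (N2_nonneg _) h1 2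
    rw [N2_sq] at h2
    unfold ms
    linarith
  have hB : (C3 / √L) ^ 2 * ∑ k, l2 (v k) ^ 2 ≤ (C1 * C3 * (7 + 35 * κ) * M) ^ 2 := by
    have h1 := bessel_l2 u
    have h2 := pow_le_pow_left₀ (N2_nonneg _) huN 2
    have h3 : (C3 / √L) ^ 2 * ∑ k, l2 (v k) ^ 2 ≤ (C3 / √L) ^ 2 * (C1 * √L * (7 + 35 * κ) * M) ^ 2 :=
      mul_le_mul_of_nonneg_left (h1.trans h2) (sq_nonneg _)
    refine h3.trans (le_of_eq ?_)
    field_simp
  calc 2 * ∑ k, l1 (aJ k) ^ 2 + 2 * ((C3 / √L) ^ 2 * ∑ k, l2 (v k) ^ 2)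
      ≤ 2 * (4 * ((1 + 18 * κ) * M) ^ 2) + 2 * (C1 * C3 * (7 + 35 * κ) * M) ^ 2 := by linarith
    _ = _ := by ring

end main

end W690.Cot
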