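import Pool.Agent.W690.Cot.Det2
import Pool.Agent.H459R3.Final

/-! Cotype 2 of random quotients of `ℓ₁^N`, for all `N ≥ n`, with high probability. -/

set_option autoImplicit false
set_option linter.unusedSectionVars false

open MeasureTheory ProbabilityTheory Set
open scoped ENNReal NNReal

namespace W690.Cot

open H459R3

lemma good2_mono {N n : ℕ} {g : Fin N → Fin n → ℝ} {K K' : ℝ} (h : Good2 g K)
    (hK : K ≤ K') : Good2 g K' := by
  obtain ⟨hg, h⟩ := h
  refine ⟨hg, fun m y => (h m y).trans ?_⟩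
  have := ms_nonneg (xs hg) y
  gcongr

/-- the regime of large `N`: cotype 2. -/
theorem large_regime2 : ∃ K : ℝ, 1 ≤ K ∧ ∀ (N n : ℕ), 0 < n → n ≤ N →
    (62208 : ℝ) * n ≤ N → mu N n {g | ¬ Good2 g K} ≤ ENNReal.ofReal (4 * Real.exp (-n)) := by
  obtain ⟨c2, hc2, C2, hC2, hcommon⟩ := common
  refine ⟨8 * (1 + 18 * (C2 / c2)) ^ 2 + 2 * (8 * 4 * (7 + 35 * (C2 / c2))) ^ 2, ?_, ?_⟩
  · have h0 : 0 ≤ C2 / c2 := by positivity
    nlinarith [sq_nonneg (8 * 4 * (7 + 35 * (C2 / c2)))]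
  intro N n hn hnN hN
  have hn' : (0 : ℝ) < n := by exact_mod_cast hn
  have hN0 : 0 < N := lt_of_lt_of_le hn hnN
  have hN' : (0 : ℝ) < N := by exact_mod_cast hN0
  set L := LL N n with hL
  have hL1 : 1 ≤ L := LL_one_le hn hnN
  have hL0 : 0 < L := by linarith
  have hNL2 : 16 * 9 * (n : ℝ) ≤ N * Real.exp (-L / 2) := by
    have h1 : (N * Real.exp (-L / 2)) ^ 2 = N * (N * Real.exp (-L)) := by
      rw [mul_pow, ← Real.exp_nat_mul]
      have : ((2 : ℕ) : ℝ) * (-L / 2) = -L := by push_cast; ring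
      rw [this]; ring
    rw [exp_neg_LL hn hnN] at h1
    have h2 : (16 * 9 * (n : ℝ)) ^ 2 ≤ (N * Real.exp (-L / 2)) ^ 2 := by
      rw [h1]
      have h3 : (n : ℝ) / 3 ≤ n / Real.exp 1 := by
        have := Real.exp_one_lt_d9
        exact div_le_div_of_nonneg_left hn'.le (Real.exp_pos _) (by linarith)
      calc (16 * 9 * (n : ℝ)) ^ 2 = (62208 * n) * (n / 3) := by ring
        _ ≤ N * (n / Real.exp 1) := mul_le_mul hN h3 (by positivity) (by positivity)
    exact (pow_le_pow_iff_left₀ (by positivity) (by positivity) (by norm_num)).1 h2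
  have hbad3 := bad3 (N := N) (n := n) hL1 hn (exp_neg_LL_le hn hnN) hNL2
  have hsub : {g : Fin N → Fin n → ℝ |
        ¬ Good2 g (8 * (1 + 18 * (C2 / c2)) ^ 2 + 2 * (8 * 4 * (7 + 35 * (C2 / c2))) ^ 2)}
      ⊆ {g | ¬ (Ev1 g (LL N n) ∧
          ∀ b, c2 * (√n * l2 b) ≤ l2 (Gm g b) + C2 * (√(LL N n) * l1 b))}
        ∪ {g | ¬ (Ev1 g L ∧ Ev3 g L)} := by
    intro g hg
    simp only [Set.mem_ofPred_eq, Set.mem_union] at hg ⊢
    by_contra hc
    push Not at hc
    obtain ⟨⟨h1, h2⟩, -, h3⟩ := hc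
    apply hg
    have hs : Surj g := by
      intro y
      obtain ⟨t, ht, -⟩ := ev3_repr g hL0 h3 y
      exact ⟨t, ht⟩
    refine ⟨hs, fun m y => ?_⟩
    refine det_all hs hn (L := L) (C1 := 8) (c2 := c2) (C2 := C2) (C3 := 4) hL0 (by norm_num) hc2
      hC2.le h1 h2 ?_ y
    intro y
    obtain ⟨t, ht, ht2⟩ := ev3_repr g hL0 h3 y
    refine le_trans ?_ ht2
    have := xn_le g t
    rw [ht] at this
    exact mul_le_mul_of_nonneg_left this (Real.sqrt_nonneg _)
  refine (measure_mono hsub).trans ((measure_union_le _ _).trans ?_)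
  refine (add_le_add (hcommon N n hn hnN) hbad3).trans (le_of_eq ?_)
  rw [← ENNReal.ofReal_add (by positivity) (by positivity)]
  congr 1
  ring

/-- all regimes: cotype 2. -/
theorem main_bad2 : ∃ K : ℝ, 1 ≤ K ∧ ∀ (N n : ℕ), 0 < n → n ≤ N →
    mu N n {g | ¬ Good2 g K} ≤ ENNReal.ofReal (4 * Real.exp (-n)) := by
  obtain ⟨K1, hK1, h1⟩ := small_regime 62208 (by norm_num)
  obtain ⟨K2, hK2, h2⟩ := large_regime2
  refine ⟨max K1 K2, le_max_of_le_left hK1, fun N n hn hnN => ?_⟩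
  rcases le_total (N : ℝ) (62208 * n) with h | h
  · refine le_trans (measure_mono ?_) ((h1 N n hn hnN h).trans (ENNReal.ofReal_le_ofReal ?_))
    · intro g hg
      simp only [Set.mem_ofPred_eq] at hg ⊢
      intro hgood
      exact hg (good2_mono hgood (le_max_left _ _))
    · have := Real.exp_pos (-(n : ℝ))
      linarith
  · refine le_trans (measure_mono ?_) (h2 N n hn hnN h)
    intro g hg
    simp only [Set.mem_ofPred_eq] at hg ⊢
    intro hgood
    exact hg (good2_mono hgood (le_max_right _ _))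

end W690.Cot
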